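import Pool.Agent.H165Z.Pvdw.Main

set_option autoImplicit false

namespace Pool.Agent.Results.MP_556fef_co.APolyShift

open Polynomial

/-- For every finite set `P` of integer polynomials vanishing at `0` and every finite colouring of
`ℚ` there are nonzero `x, y` with `{x, y, x y} ∪ {x + p(y) : p ∈ P}` monochromatic. -/
theorem result (P : Finset ℤ[X]) (hP : ∀ p ∈ P, p.eval 0 = 0) (r : ℕ) (c : ℚ → Fin r) :
    ∃ x y : ℚ, x ≠ 0 ∧ y ≠ 0 ∧ c y = c x ∧ c (x * y) = c x ∧
      ∀ p ∈ P, c (x + aeval y p) = c x := by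
  classical
  obtain ⟨x, y, hx, hy, h1, h2, h3⟩ := Pool.Agent.H165Z.Pvdw.main
    (fun x : ℚ => (c x, decide (x = 0))) (fun x h => by simpa using congrArg Prod.snd h)
    (insert X P) (fun p hp => by
      rcases Finset.mem_insert.1 hp with rfl | hp
      · simp
      · rw [coeff_zero_eq_eval_zero]; exact hP p hp) (Finset.mem_insert_self _ _)
  exact ⟨x, y, hx, hy, congrArg Prod.fst h1, congrArg Prod.fst h2,
    fun p hp => congrArg Prod.fst (h3 p (Finset.mem_insert_of_mem hp))⟩

end Pool.Agent.Results.MP_556fef_co.APolyShift
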